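import Pool.Agent.Strip051.Box.C2
import Pool.Agent.Strip051.Box.S30
import Pool.Agent.Strip051.LB.Fc.F2

/-! # LINE tight chart ChB30V3_pp_001 -/

namespace Pool.Agent.Strip051.LB.ChB30V3_pp_001

open Pool.Agent.Strip051.Box Pool.Agent.Strip051.Box2

open Pool.Agent.Strip051.LB.Fc Pool.Agent.Strip051.LB.Fc.F2 Pool.Agent.Strip051.LB.Fn Pool.Agent.Strip051.LB.Fn.F2

/-- coordinates of a point of the box -/
def In (b : Bx) (E : Pt) (x1 x2 : ℝ) : Prop :=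
  (S : ℝ) * x1 = ((b.p1 : ℝ) - b.n1) + b.q1 * E.e1 ∧ (S : ℝ) * x2 = ((b.p2 : ℝ) - b.n2) + b.q2 * E.e2

variable {b : Bx} {E : Pt} {x1 x2 : ℝ}

def t0 (b : Bx) : TM := X1 b
noncomputable def v0 (x1 _x2 : ℝ) : ℝ := x1
theorem h0 (h : In b E x1 x2) : Enc S E (t0 b) (v0 x1 x2) := enc_X1 h.1

def t1 (b : Bx) : TM := X2 b
noncomputable def v1 (_x1 x2 : ℝ) : ℝ := x2
theorem h1 (h : In b E x1 x2) : Enc S E (t1 b) (v1 x1 x2) := enc_X2 h.2

def t2 (_b : Bx) : TM := tconst 1859775393 0 1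
noncomputable def v2 (_x1 _x2 : ℝ) : ℝ := Real.sqrt ((3 : ℕ) : ℝ)
theorem h2 (_h : In b E x1 x2) : Enc S E (t2 b) (v2 x1 x2) := enc_sqrtn E (by decide) (by decide)

def t3 (b : Bx) : TM := tscale 1 2 (t2 b)
noncomputable def v3 (x1 x2 : ℝ) : ℝ := ((1 : ℕ) : ℝ) / ((2 : ℕ) : ℝ) * v2 x1 x2
theorem h3 (h : In b E x1 x2) : Enc S E (t3 b) (v3 x1 x2) := enc_scale 1 (by norm_num) (h2 h)

def t4 (b : Bx) : TM := tsq S (t0 b)
noncomputable def v4 (x1 x2 : ℝ) : ℝ := (v0 x1 x2) ^ 2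
theorem h4 (h : In b E x1 x2) : Enc S E (t4 b) (v4 x1 x2) := enc_sq hS (h0 h)

def t5 (_b : Bx) : TM := tconst (Nat.mul 3 S) 0 0
noncomputable def v5 (_x1 _x2 : ℝ) : ℝ := ((3 : ℕ) : ℝ)
theorem h5 (_h : In b E x1 x2) : Enc S E (t5 b) (v5 x1 x2) := enc_nc E 3

def t6 (b : Bx) : TM := tsub (t5 b) (t4 b)
noncomputable def v6 (x1 x2 : ℝ) : ℝ := v5 x1 x2 - v4 x1 x2
theorem h6 (h : In b E x1 x2) : Enc S E (t6 b) (v6 x1 x2) := enc_sub (h5 h) (h4 h)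

def t7 (b : Bx) : TM := tsqrt S (t6 b)
noncomputable def v7 (x1 x2 : ℝ) : ℝ := Real.sqrt (v6 x1 x2)
theorem h7 (h : In b E x1 x2) : Enc S E (t7 b) (v7 x1 x2) := enc_sqrt hS (h6 h)

def t8 (b : Bx) : TM := tinv S (t2 b)
noncomputable def v8 (x1 x2 : ℝ) : ℝ := (v2 x1 x2)⁻¹
theorem h8 (h : In b E x1 x2) : Enc S E (t8 b) (v8 x1 x2) := enc_inv hS (h2 h)

def t9 (b : Bx) : TM := tmul S (t7 b) (t8 b)
noncomputable def v9 (x1 x2 : ℝ) : ℝ := v7 x1 x2 * v8 x1 x2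
theorem h9 (h : In b E x1 x2) : Enc S E (t9 b) (v9 x1 x2) := enc_mul hS (h7 h) (h8 h)

def t10 (b : Bx) : TM := tmul S (t0 b) (t8 b)
noncomputable def v10 (x1 x2 : ℝ) : ℝ := v0 x1 x2 * v8 x1 x2
theorem h10 (h : In b E x1 x2) : Enc S E (t10 b) (v10 x1 x2) := enc_mul hS (h0 h) (h8 h)

def t12 (_b : Bx) : TM := tconst (Nat.div (Nat.mul 1 S) 2) 0 1
noncomputable def v12 (_x1 _x2 : ℝ) : ℝ := ((1 : ℕ) : ℝ) / ((2 : ℕ) : ℝ)
theorem h12 (_h : In b E x1 x2) : Enc S E (t12 b) (v12 x1 x2) := enc_rat E 1 (by norm_num)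

def t13 (b : Bx) : TM := tmul S (t9 b) (t3 b)
noncomputable def v13 (x1 x2 : ℝ) : ℝ := v9 x1 x2 * v3 x1 x2
theorem h13 (h : In b E x1 x2) : Enc S E (t13 b) (v13 x1 x2) := enc_mul hS (h9 h) (h3 h)

def t15 (b : Bx) : TM := tscale 1 2 (t10 b)
noncomputable def v15 (x1 x2 : ℝ) : ℝ := ((1 : ℕ) : ℝ) / ((2 : ℕ) : ℝ) * v10 x1 x2
theorem h15 (h : In b E x1 x2) : Enc S E (t15 b) (v15 x1 x2) := enc_scale 1 (by norm_num) (h10 h)

def t17 (b : Bx) : TM := tmul S (t10 b) (t3 b)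
noncomputable def v17 (x1 x2 : ℝ) : ℝ := v10 x1 x2 * v3 x1 x2
theorem h17 (h : In b E x1 x2) : Enc S E (t17 b) (v17 x1 x2) := enc_mul hS (h10 h) (h3 h)

def t19 (b : Bx) : TM := tscale 1 2 (t9 b)
noncomputable def v19 (x1 x2 : ℝ) : ℝ := ((1 : ℕ) : ℝ) / ((2 : ℕ) : ℝ) * v9 x1 x2
theorem h19 (h : In b E x1 x2) : Enc S E (t19 b) (v19 x1 x2) := enc_scale 1 (by norm_num) (h9 h)

def t21 (b : Bx) : TM := tsub (t13 b) (t15 b)
noncomputable def v21 (x1 x2 : ℝ) : ℝ := v13 x1 x2 - v15 x1 x2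
theorem h21 (h : In b E x1 x2) : Enc S E (t21 b) (v21 x1 x2) := enc_sub (h13 h) (h15 h)

def t22 (b : Bx) : TM := tadd (t17 b) (t19 b)
noncomputable def v22 (x1 x2 : ℝ) : ℝ := v17 x1 x2 + v19 x1 x2
theorem h22 (h : In b E x1 x2) : Enc S E (t22 b) (v22 x1 x2) := enc_add (h17 h) (h19 h)

def t23 (b : Bx) : TM := tsub (t1 b) (t22 b)
noncomputable def v23 (x1 x2 : ℝ) : ℝ := v1 x1 x2 - v22 x1 x2
theorem h23 (h : In b E x1 x2) : Enc S E (t23 b) (v23 x1 x2) := enc_sub (h1 h) (h22 h)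

def t24 (b : Bx) : TM := tsq S (t1 b)
noncomputable def v24 (x1 x2 : ℝ) : ℝ := (v1 x1 x2) ^ 2
theorem h24 (h : In b E x1 x2) : Enc S E (t24 b) (v24 x1 x2) := enc_sq hS (h1 h)

def t25 (_b : Bx) : TM := tconst (Nat.mul 1 S) 0 0
noncomputable def v25 (_x1 _x2 : ℝ) : ℝ := ((1 : ℕ) : ℝ)
theorem h25 (_h : In b E x1 x2) : Enc S E (t25 b) (v25 x1 x2) := enc_nc E 1

def t26 (b : Bx) : TM := tsub (t25 b) (t24 b)
noncomputable def v26 (x1 x2 : ℝ) : ℝ := v25 x1 x2 - v24 x1 x2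
theorem h26 (h : In b E x1 x2) : Enc S E (t26 b) (v26 x1 x2) := enc_sub (h25 h) (h24 h)

def t27 (b : Bx) : TM := tsqrt S (t26 b)
noncomputable def v27 (x1 x2 : ℝ) : ℝ := Real.sqrt (v26 x1 x2)
theorem h27 (h : In b E x1 x2) : Enc S E (t27 b) (v27 x1 x2) := enc_sqrt hS (h26 h)

def t28 (b : Bx) : TM := tsub (t27 b) (t7 b)
noncomputable def v28 (x1 x2 : ℝ) : ℝ := v27 x1 x2 - v7 x1 x2
theorem h28 (h : In b E x1 x2) : Enc S E (t28 b) (v28 x1 x2) := enc_sub (h27 h) (h7 h)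

def t29 (b : Bx) : TM := tsub (t1 b) (t0 b)
noncomputable def v29 (x1 x2 : ℝ) : ℝ := v1 x1 x2 - v0 x1 x2
theorem h29 (h : In b E x1 x2) : Enc S E (t29 b) (v29 x1 x2) := enc_sub (h1 h) (h0 h)

def t30 (_b : Bx) : TM := tconst (Nat.div (Nat.mul 3 S) 2) 0 1
noncomputable def v30 (_x1 _x2 : ℝ) : ℝ := ((3 : ℕ) : ℝ) / ((2 : ℕ) : ℝ)
theorem h30 (_h : In b E x1 x2) : Enc S E (t30 b) (v30 x1 x2) := enc_rat E 3 (by norm_num)

def t31 (b : Bx) : TM := tadd (t7 b) (t30 b)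
noncomputable def v31 (x1 x2 : ℝ) : ℝ := v7 x1 x2 + v30 x1 x2
theorem h31 (h : In b E x1 x2) : Enc S E (t31 b) (v31 x1 x2) := enc_add (h7 h) (h30 h)

def t32 (b : Bx) : TM := tmul S (t4 b) (t31 b)
noncomputable def v32 (x1 x2 : ℝ) : ℝ := v4 x1 x2 * v31 x1 x2
theorem h32 (h : In b E x1 x2) : Enc S E (t32 b) (v32 x1 x2) := enc_mul hS (h4 h) (h31 h)

def t33 (b : Bx) : TM := tsub (t3 b) (t0 b)
noncomputable def v33 (x1 x2 : ℝ) : ℝ := v3 x1 x2 - v0 x1 x2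
theorem h33 (h : In b E x1 x2) : Enc S E (t33 b) (v33 x1 x2) := enc_sub (h3 h) (h0 h)

def t34 (b : Bx) : TM := tadd (t3 b) (t0 b)
noncomputable def v34 (x1 x2 : ℝ) : ℝ := v3 x1 x2 + v0 x1 x2
theorem h34 (h : In b E x1 x2) : Enc S E (t34 b) (v34 x1 x2) := enc_add (h3 h) (h0 h)

def t35 (b : Bx) : TM := tmul S (t33 b) (t34 b)
noncomputable def v35 (x1 x2 : ℝ) : ℝ := v33 x1 x2 * v34 x1 x2
theorem h35 (h : In b E x1 x2) : Enc S E (t35 b) (v35 x1 x2) := enc_mul hS (h33 h) (h34 h)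

def t36 (b : Bx) : TM := tinv S (t35 b)
noncomputable def v36 (x1 x2 : ℝ) : ℝ := (v35 x1 x2)⁻¹
theorem h36 (h : In b E x1 x2) : Enc S E (t36 b) (v36 x1 x2) := enc_inv hS (h35 h)

def t37 (b : Bx) : TM := tmul S (t32 b) (t36 b)
noncomputable def v37 (x1 x2 : ℝ) : ℝ := v32 x1 x2 * v36 x1 x2
theorem h37 (h : In b E x1 x2) : Enc S E (t37 b) (v37 x1 x2) := enc_mul hS (h32 h) (h36 h)

def t39 (b : Bx) : TM := tnat 2 (t27 b)
noncomputable def v39 (x1 x2 : ℝ) : ℝ := ((2 : ℕ) : ℝ) * v27 x1 x2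
theorem h39 (h : In b E x1 x2) : Enc S E (t39 b) (v39 x1 x2) := enc_nat 2 (h27 h)

def t40 (b : Bx) : TM := tadd (t25 b) (t39 b)
noncomputable def v40 (x1 x2 : ℝ) : ℝ := v25 x1 x2 + v39 x1 x2
theorem h40 (h : In b E x1 x2) : Enc S E (t40 b) (v40 x1 x2) := enc_add (h25 h) (h39 h)

def t41 (b : Bx) : TM := tmul S (t2 b) (t1 b)
noncomputable def v41 (x1 x2 : ℝ) : ℝ := v2 x1 x2 * v1 x1 x2
theorem h41 (h : In b E x1 x2) : Enc S E (t41 b) (v41 x1 x2) := enc_mul hS (h2 h) (h1 h)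

def t42 (b : Bx) : TM := tsub (t41 b) (t27 b)
noncomputable def v42 (x1 x2 : ℝ) : ℝ := v41 x1 x2 - v27 x1 x2
theorem h42 (h : In b E x1 x2) : Enc S E (t42 b) (v42 x1 x2) := enc_sub (h41 h) (h27 h)

def t43 (b : Bx) : TM := tmul S (t40 b) (t42 b)
noncomputable def v43 (x1 x2 : ℝ) : ℝ := v40 x1 x2 * v42 x1 x2
theorem h43 (h : In b E x1 x2) : Enc S E (t43 b) (v43 x1 x2) := enc_mul hS (h40 h) (h42 h)

def t44 (b : Bx) : TM := tadd (t25 b) (t41 b)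
noncomputable def v44 (x1 x2 : ℝ) : ℝ := v25 x1 x2 + v41 x1 x2
theorem h44 (h : In b E x1 x2) : Enc S E (t44 b) (v44 x1 x2) := enc_add (h25 h) (h41 h)

def t45 (b : Bx) : TM := tsub (t44 b) (t27 b)
noncomputable def v45 (x1 x2 : ℝ) : ℝ := v44 x1 x2 - v27 x1 x2
theorem h45 (h : In b E x1 x2) : Enc S E (t45 b) (v45 x1 x2) := enc_sub (h44 h) (h27 h)

def t46 (b : Bx) : TM := tnat 2 (t45 b)
noncomputable def v46 (x1 x2 : ℝ) : ℝ := ((2 : ℕ) : ℝ) * v45 x1 x2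
theorem h46 (h : In b E x1 x2) : Enc S E (t46 b) (v46 x1 x2) := enc_nat 2 (h45 h)

def t47 (b : Bx) : TM := tinv S (t46 b)
noncomputable def v47 (x1 x2 : ℝ) : ℝ := (v46 x1 x2)⁻¹
theorem h47 (h : In b E x1 x2) : Enc S E (t47 b) (v47 x1 x2) := enc_inv hS (h46 h)

def t48 (b : Bx) : TM := tmul S (t43 b) (t47 b)
noncomputable def v48 (x1 x2 : ℝ) : ℝ := v43 x1 x2 * v47 x1 x2
theorem h48 (h : In b E x1 x2) : Enc S E (t48 b) (v48 x1 x2) := enc_mul hS (h43 h) (h47 h)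

def t49 (b : Bx) : TM := tsq S (t28 b)
noncomputable def v49 (x1 x2 : ℝ) : ℝ := (v28 x1 x2) ^ 2
theorem h49 (h : In b E x1 x2) : Enc S E (t49 b) (v49 x1 x2) := enc_sq hS (h28 h)

def t50 (b : Bx) : TM := tsq S (t29 b)
noncomputable def v50 (x1 x2 : ℝ) : ℝ := (v29 x1 x2) ^ 2
theorem h50 (h : In b E x1 x2) : Enc S E (t50 b) (v50 x1 x2) := enc_sq hS (h29 h)

def t51 (b : Bx) : TM := tadd (t49 b) (t50 b)
noncomputable def v51 (x1 x2 : ℝ) : ℝ := v49 x1 x2 + v50 x1 x2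
theorem h51 (h : In b E x1 x2) : Enc S E (t51 b) (v51 x1 x2) := enc_add (h49 h) (h50 h)

def t55 (b : Bx) : TM := tadd (t1 b) (t22 b)
noncomputable def v55 (x1 x2 : ℝ) : ℝ := v1 x1 x2 + v22 x1 x2
theorem h55 (h : In b E x1 x2) : Enc S E (t55 b) (v55 x1 x2) := enc_add (h1 h) (h22 h)

def t58 (b : Bx) : TM := tadd (t27 b) (t21 b)
noncomputable def v58 (x1 x2 : ℝ) : ℝ := v27 x1 x2 + v21 x1 x2
theorem h58 (h : In b E x1 x2) : Enc S E (t58 b) (v58 x1 x2) := enc_add (h27 h) (h21 h)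

def t59 (b : Bx) : TM := tinv S (t58 b)
noncomputable def v59 (x1 x2 : ℝ) : ℝ := (v58 x1 x2)⁻¹
theorem h59 (h : In b E x1 x2) : Enc S E (t59 b) (v59 x1 x2) := enc_inv hS (h58 h)

def t60 (b : Bx) : TM := tmul S (t55 b) (t59 b)
noncomputable def v60 (x1 x2 : ℝ) : ℝ := v55 x1 x2 * v59 x1 x2
theorem h60 (h : In b E x1 x2) : Enc S E (t60 b) (v60 x1 x2) := enc_mul hS (h55 h) (h59 h)

def t62 (b : Bx) : TM := tsub (t21 b) (t7 b)
noncomputable def v62 (x1 x2 : ℝ) : ℝ := v21 x1 x2 - v7 x1 x2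
theorem h62 (h : In b E x1 x2) : Enc S E (t62 b) (v62 x1 x2) := enc_sub (h21 h) (h7 h)

def t64 (b : Bx) : TM := tadd (t28 b) (t62 b)
noncomputable def v64 (x1 x2 : ℝ) : ℝ := v28 x1 x2 + v62 x1 x2
theorem h64 (h : In b E x1 x2) : Enc S E (t64 b) (v64 x1 x2) := enc_add (h28 h) (h62 h)

def t65 (b : Bx) : TM := tmul S (t60 b) (t64 b)
noncomputable def v65 (x1 x2 : ℝ) : ℝ := v60 x1 x2 * v64 x1 x2
theorem h65 (h : In b E x1 x2) : Enc S E (t65 b) (v65 x1 x2) := enc_mul hS (h60 h) (h64 h)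

def t67 (b : Bx) : TM := tsub (t22 b) (t0 b)
noncomputable def v67 (x1 x2 : ℝ) : ℝ := v22 x1 x2 - v0 x1 x2
theorem h67 (h : In b E x1 x2) : Enc S E (t67 b) (v67 x1 x2) := enc_sub (h22 h) (h0 h)

def t69 (b : Bx) : TM := tadd (t29 b) (t67 b)
noncomputable def v69 (x1 x2 : ℝ) : ℝ := v29 x1 x2 + v67 x1 x2
theorem h69 (h : In b E x1 x2) : Enc S E (t69 b) (v69 x1 x2) := enc_add (h29 h) (h67 h)

def t71 (b : Bx) : TM := tsub (t69 b) (t65 b)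
noncomputable def v71 (x1 x2 : ℝ) : ℝ := v69 x1 x2 - v65 x1 x2
theorem h71 (h : In b E x1 x2) : Enc S E (t71 b) (v71 x1 x2) := enc_sub (h69 h) (h65 h)

def t73 (b : Bx) : TM := tsub (t7 b) (t27 b)
noncomputable def v73 (x1 x2 : ℝ) : ℝ := v7 x1 x2 - v27 x1 x2
theorem h73 (h : In b E x1 x2) : Enc S E (t73 b) (v73 x1 x2) := enc_sub (h7 h) (h27 h)

def t74 (b : Bx) : TM := tsub (t25 b) (t50 b)
noncomputable def v74 (x1 x2 : ℝ) : ℝ := v25 x1 x2 - v50 x1 x2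
theorem h74 (h : In b E x1 x2) : Enc S E (t74 b) (v74 x1 x2) := enc_sub (h25 h) (h50 h)

def t75 (b : Bx) : TM := tsqrt S (t74 b)
noncomputable def v75 (x1 x2 : ℝ) : ℝ := Real.sqrt (v74 x1 x2)
theorem h75 (h : In b E x1 x2) : Enc S E (t75 b) (v75 x1 x2) := enc_sqrt hS (h74 h)

def t76 (b : Bx) : TM := tadd (t15 b) (t13 b)
noncomputable def v76 (x1 x2 : ℝ) : ℝ := v15 x1 x2 + v13 x1 x2
theorem h76 (h : In b E x1 x2) : Enc S E (t76 b) (v76 x1 x2) := enc_add (h15 h) (h13 h)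

def t77 (b : Bx) : TM := tmul S (t2 b) (t29 b)
noncomputable def v77 (x1 x2 : ℝ) : ℝ := v2 x1 x2 * v29 x1 x2
theorem h77 (h : In b E x1 x2) : Enc S E (t77 b) (v77 x1 x2) := enc_mul hS (h2 h) (h29 h)

def t78 (b : Bx) : TM := tsub (t75 b) (t77 b)
noncomputable def v78 (x1 x2 : ℝ) : ℝ := v75 x1 x2 - v77 x1 x2
theorem h78 (h : In b E x1 x2) : Enc S E (t78 b) (v78 x1 x2) := enc_sub (h75 h) (h77 h)

def t79 (b : Bx) : TM := tadd (t25 b) (t75 b)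
noncomputable def v79 (x1 x2 : ℝ) : ℝ := v25 x1 x2 + v75 x1 x2
theorem h79 (h : In b E x1 x2) : Enc S E (t79 b) (v79 x1 x2) := enc_add (h25 h) (h75 h)

def t80 (b : Bx) : TM := tmul S (t78 b) (t79 b)
noncomputable def v80 (x1 x2 : ℝ) : ℝ := v78 x1 x2 * v79 x1 x2
theorem h80 (h : In b E x1 x2) : Enc S E (t80 b) (v80 x1 x2) := enc_mul hS (h78 h) (h79 h)

def t81 (b : Bx) : TM := tsub (t79 b) (t77 b)
noncomputable def v81 (x1 x2 : ℝ) : ℝ := v79 x1 x2 - v77 x1 x2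
theorem h81 (h : In b E x1 x2) : Enc S E (t81 b) (v81 x1 x2) := enc_sub (h79 h) (h77 h)

def t82 (b : Bx) : TM := tinv S (t81 b)
noncomputable def v82 (x1 x2 : ℝ) : ℝ := (v81 x1 x2)⁻¹
theorem h82 (h : In b E x1 x2) : Enc S E (t82 b) (v82 x1 x2) := enc_inv hS (h81 h)

def t83 (b : Bx) : TM := tmul S (t80 b) (t82 b)
noncomputable def v83 (x1 x2 : ℝ) : ℝ := v80 x1 x2 * v82 x1 x2
theorem h83 (h : In b E x1 x2) : Enc S E (t83 b) (v83 x1 x2) := enc_mul hS (h80 h) (h82 h)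

def t86 (b : Bx) : TM := tadd (t75 b) (t76 b)
noncomputable def v86 (x1 x2 : ℝ) : ℝ := v75 x1 x2 + v76 x1 x2
theorem h86 (h : In b E x1 x2) : Enc S E (t86 b) (v86 x1 x2) := enc_add (h75 h) (h76 h)

def t87 (b : Bx) : TM := tinv S (t86 b)
noncomputable def v87 (x1 x2 : ℝ) : ℝ := (v86 x1 x2)⁻¹
theorem h87 (h : In b E x1 x2) : Enc S E (t87 b) (v87 x1 x2) := enc_inv hS (h86 h)

def t88 (b : Bx) : TM := tmul S (t69 b) (t87 b)
noncomputable def v88 (x1 x2 : ℝ) : ℝ := v69 x1 x2 * v87 x1 x2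
theorem h88 (h : In b E x1 x2) : Enc S E (t88 b) (v88 x1 x2) := enc_mul hS (h69 h) (h87 h)

def t89 (b : Bx) : TM := tneg (t88 b)
noncomputable def v89 (x1 x2 : ℝ) : ℝ := -(v88 x1 x2)
theorem h89 (h : In b E x1 x2) : Enc S E (t89 b) (v89 x1 x2) := enc_neg (h88 h)

def t90 (b : Bx) : TM := tmul S (t2 b) (t67 b)
noncomputable def v90 (x1 x2 : ℝ) : ℝ := v2 x1 x2 * v67 x1 x2
theorem h90 (h : In b E x1 x2) : Enc S E (t90 b) (v90 x1 x2) := enc_mul hS (h2 h) (h67 h)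

def t91 (b : Bx) : TM := tsub (t76 b) (t90 b)
noncomputable def v91 (x1 x2 : ℝ) : ℝ := v76 x1 x2 - v90 x1 x2
theorem h91 (h : In b E x1 x2) : Enc S E (t91 b) (v91 x1 x2) := enc_sub (h76 h) (h90 h)

def t92 (b : Bx) : TM := tsub (t89 b) (t2 b)
noncomputable def v92 (x1 x2 : ℝ) : ℝ := v89 x1 x2 - v2 x1 x2
theorem h92 (h : In b E x1 x2) : Enc S E (t92 b) (v92 x1 x2) := enc_sub (h89 h) (h2 h)

def t93 (b : Bx) : TM := tadd (t25 b) (t76 b)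
noncomputable def v93 (x1 x2 : ℝ) : ℝ := v25 x1 x2 + v76 x1 x2
theorem h93 (h : In b E x1 x2) : Enc S E (t93 b) (v93 x1 x2) := enc_add (h25 h) (h76 h)

def t94 (b : Bx) : TM := tmul S (t91 b) (t93 b)
noncomputable def v94 (x1 x2 : ℝ) : ℝ := v91 x1 x2 * v93 x1 x2
theorem h94 (h : In b E x1 x2) : Enc S E (t94 b) (v94 x1 x2) := enc_mul hS (h91 h) (h93 h)

def t95 (b : Bx) : TM := tmul S (t92 b) (t79 b)
noncomputable def v95 (x1 x2 : ℝ) : ℝ := v92 x1 x2 * v79 x1 x2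
theorem h95 (h : In b E x1 x2) : Enc S E (t95 b) (v95 x1 x2) := enc_mul hS (h92 h) (h79 h)

def t96 (b : Bx) : TM := tmul S (t91 b) (t88 b)
noncomputable def v96 (x1 x2 : ℝ) : ℝ := v91 x1 x2 * v88 x1 x2
theorem h96 (h : In b E x1 x2) : Enc S E (t96 b) (v96 x1 x2) := enc_mul hS (h91 h) (h88 h)

def t98 (b : Bx) : TM := tsub (t95 b) (t96 b)
noncomputable def v98 (x1 x2 : ℝ) : ℝ := v95 x1 x2 - v96 x1 x2
theorem h98 (h : In b E x1 x2) : Enc S E (t98 b) (v98 x1 x2) := enc_sub (h95 h) (h96 h)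

def t99 (b : Bx) : TM := tsub (t93 b) (t90 b)
noncomputable def v99 (x1 x2 : ℝ) : ℝ := v93 x1 x2 - v90 x1 x2
theorem h99 (h : In b E x1 x2) : Enc S E (t99 b) (v99 x1 x2) := enc_sub (h93 h) (h90 h)

def t100 (b : Bx) : TM := tinv S (t99 b)
noncomputable def v100 (x1 x2 : ℝ) : ℝ := (v99 x1 x2)⁻¹
theorem h100 (h : In b E x1 x2) : Enc S E (t100 b) (v100 x1 x2) := enc_inv hS (h99 h)

def t101 (b : Bx) : TM := tmul S (t82 b) (t100 b)
noncomputable def v101 (x1 x2 : ℝ) : ℝ := v82 x1 x2 * v100 x1 x2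
theorem h101 (h : In b E x1 x2) : Enc S E (t101 b) (v101 x1 x2) := enc_mul hS (h82 h) (h100 h)

def t102 (b : Bx) : TM := tmul S (t92 b) (t101 b)
noncomputable def v102 (x1 x2 : ℝ) : ℝ := v92 x1 x2 * v101 x1 x2
theorem h102 (h : In b E x1 x2) : Enc S E (t102 b) (v102 x1 x2) := enc_mul hS (h92 h) (h101 h)

def t105 (b : Bx) : TM := tmul S (t98 b) (t82 b)
noncomputable def v105 (x1 x2 : ℝ) : ℝ := v98 x1 x2 * v82 x1 x2
theorem h105 (h : In b E x1 x2) : Enc S E (t105 b) (v105 x1 x2) := enc_mul hS (h98 h) (h82 h)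

def t106 (b : Bx) : TM := tmul S (t94 b) (t102 b)
noncomputable def v106 (x1 x2 : ℝ) : ℝ := v94 x1 x2 * v102 x1 x2
theorem h106 (h : In b E x1 x2) : Enc S E (t106 b) (v106 x1 x2) := enc_mul hS (h94 h) (h102 h)

def t108 (b : Bx) : TM := tsub (t105 b) (t106 b)
noncomputable def v108 (x1 x2 : ℝ) : ℝ := v105 x1 x2 - v106 x1 x2
theorem h108 (h : In b E x1 x2) : Enc S E (t108 b) (v108 x1 x2) := enc_sub (h105 h) (h106 h)

def t109 (b : Bx) : TM := kxq0_t (t73 b) (t29 b)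
noncomputable def v109 (x1 x2 : ℝ) : ℝ := kxq0_v (v73 x1 x2) (v29 x1 x2)
theorem h109 (h : In b E x1 x2) : Enc S E (t109 b) (v109 x1 x2) := kxq0_enc (h73 h) (h29 h)

def t110 (b : Bx) : TM := tadd (t73 b) (t75 b)
noncomputable def v110 (x1 x2 : ℝ) : ℝ := v73 x1 x2 + v75 x1 x2
theorem h110 (h : In b E x1 x2) : Enc S E (t110 b) (v110 x1 x2) := enc_add (h73 h) (h75 h)

def t111 (b : Bx) : TM := f2m_t (t29 b)
noncomputable def v111 (x1 x2 : ℝ) : ℝ := f2m_v (v29 x1 x2)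
theorem h111 (h : In b E x1 x2) : Enc S E (t111 b) (v111 x1 x2) := f2m_enc (h29 h)

def t112 (b : Bx) : TM := tsub (t111 b) (t73 b)
noncomputable def v112 (x1 x2 : ℝ) : ℝ := v111 x1 x2 - v73 x1 x2
theorem h112 (h : In b E x1 x2) : Enc S E (t112 b) (v112 x1 x2) := enc_sub (h111 h) (h73 h)

def t113 (b : Bx) : TM := tsub (t73 b) (t75 b)
noncomputable def v113 (x1 x2 : ℝ) : ℝ := v73 x1 x2 - v75 x1 x2
theorem h113 (h : In b E x1 x2) : Enc S E (t113 b) (v113 x1 x2) := enc_sub (h73 h) (h75 h)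

def t114 (b : Bx) : TM := tmul S (t113 b) (t109 b)
noncomputable def v114 (x1 x2 : ℝ) : ℝ := v113 x1 x2 * v109 x1 x2
theorem h114 (h : In b E x1 x2) : Enc S E (t114 b) (v114 x1 x2) := enc_mul hS (h113 h) (h109 h)

def t115 (b : Bx) : TM := tadd (t83 b) (t114 b)
noncomputable def v115 (x1 x2 : ℝ) : ℝ := v83 x1 x2 + v114 x1 x2
theorem h115 (h : In b E x1 x2) : Enc S E (t115 b) (v115 x1 x2) := enc_add (h83 h) (h114 h)

def t116 (b : Bx) : TM := tneg (t115 b)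
noncomputable def v116 (x1 x2 : ℝ) : ℝ := -(v115 x1 x2)
theorem h116 (h : In b E x1 x2) : Enc S E (t116 b) (v116 x1 x2) := enc_neg (h115 h)

def t118 (b : Bx) : TM := tmul S (t71 b) (t109 b)
noncomputable def v118 (x1 x2 : ℝ) : ℝ := v71 x1 x2 * v109 x1 x2
theorem h118 (h : In b E x1 x2) : Enc S E (t118 b) (v118 x1 x2) := enc_mul hS (h71 h) (h109 h)

def t119 (b : Bx) : TM := tinv S (t110 b)
noncomputable def v119 (x1 x2 : ℝ) : ℝ := (v110 x1 x2)⁻¹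
theorem h119 (h : In b E x1 x2) : Enc S E (t119 b) (v119 x1 x2) := enc_inv hS (h110 h)

def t120 (b : Bx) : TM := tmul S (t118 b) (t119 b)
noncomputable def v120 (x1 x2 : ℝ) : ℝ := v118 x1 x2 * v119 x1 x2
theorem h120 (h : In b E x1 x2) : Enc S E (t120 b) (v120 x1 x2) := enc_mul hS (h118 h) (h119 h)

def t121 (b : Bx) : TM := tadd (t108 b) (t120 b)
noncomputable def v121 (x1 x2 : ℝ) : ℝ := v108 x1 x2 + v120 x1 x2
theorem h121 (h : In b E x1 x2) : Enc S E (t121 b) (v121 x1 x2) := enc_add (h108 h) (h120 h)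

def t123 (b : Bx) : TM := tmul S (t7 b) (t1 b)
noncomputable def v123 (x1 x2 : ℝ) : ℝ := v7 x1 x2 * v1 x1 x2
theorem h123 (h : In b E x1 x2) : Enc S E (t123 b) (v123 x1 x2) := enc_mul hS (h7 h) (h1 h)

def t124 (b : Bx) : TM := tmul S (t27 b) (t0 b)
noncomputable def v124 (x1 x2 : ℝ) : ℝ := v27 x1 x2 * v0 x1 x2
theorem h124 (h : In b E x1 x2) : Enc S E (t124 b) (v124 x1 x2) := enc_mul hS (h27 h) (h0 h)

def t125 (b : Bx) : TM := tsub (t123 b) (t124 b)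
noncomputable def v125 (x1 x2 : ℝ) : ℝ := v123 x1 x2 - v124 x1 x2
theorem h125 (h : In b E x1 x2) : Enc S E (t125 b) (v125 x1 x2) := enc_sub (h123 h) (h124 h)

def t126 (b : Bx) : TM := tmul S (t125 b) (t8 b)
noncomputable def v126 (x1 x2 : ℝ) : ℝ := v125 x1 x2 * v8 x1 x2
theorem h126 (h : In b E x1 x2) : Enc S E (t126 b) (v126 x1 x2) := enc_mul hS (h125 h) (h8 h)

def t127 (b : Bx) : TM := tsub (t126 b) (t12 b)
noncomputable def v127 (x1 x2 : ℝ) : ℝ := v126 x1 x2 - v12 x1 x2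
theorem h127 (h : In b E x1 x2) : Enc S E (t127 b) (v127 x1 x2) := enc_sub (h126 h) (h12 h)

def t130 (b : Bx) : TM := tmul S (t60 b) (t0 b)
noncomputable def v130 (x1 x2 : ℝ) : ℝ := v60 x1 x2 * v0 x1 x2
theorem h130 (h : In b E x1 x2) : Enc S E (t130 b) (v130 x1 x2) := enc_mul hS (h60 h) (h0 h)

def t133 (b : Bx) : TM := tadd (t7 b) (t130 b)
noncomputable def v133 (x1 x2 : ℝ) : ℝ := v7 x1 x2 + v130 x1 x2
theorem h133 (h : In b E x1 x2) : Enc S E (t133 b) (v133 x1 x2) := enc_add (h7 h) (h130 h)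

def t135 (b : Bx) : TM := tmul S (t133 b) (t8 b)
noncomputable def v135 (x1 x2 : ℝ) : ℝ := v133 x1 x2 * v8 x1 x2
theorem h135 (h : In b E x1 x2) : Enc S E (t135 b) (v135 x1 x2) := enc_mul hS (h133 h) (h8 h)

def t137 (b : Bx) : TM := tsub (t1 b) (t3 b)
noncomputable def v137 (x1 x2 : ℝ) : ℝ := v1 x1 x2 - v3 x1 x2
theorem h137 (h : In b E x1 x2) : Enc S E (t137 b) (v137 x1 x2) := enc_sub (h1 h) (h3 h)

def t151 (b : Bx) : TM := tmul S (t0 b) (t121 b)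
noncomputable def v151 (x1 x2 : ℝ) : ℝ := v0 x1 x2 * v121 x1 x2
theorem h151 (h : In b E x1 x2) : Enc S E (t151 b) (v151 x1 x2) := enc_mul hS (h0 h) (h121 h)

def t153 (b : Bx) : TM := tsub (t37 b) (t151 b)
noncomputable def v153 (x1 x2 : ℝ) : ℝ := v37 x1 x2 - v151 x1 x2
theorem h153 (h : In b E x1 x2) : Enc S E (t153 b) (v153 x1 x2) := enc_sub (h37 h) (h151 h)

def t154 (b : Bx) : TM := tnat 2 (t21 b)
noncomputable def v154 (x1 x2 : ℝ) : ℝ := ((2 : ℕ) : ℝ) * v21 x1 x2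
theorem h154 (h : In b E x1 x2) : Enc S E (t154 b) (v154 x1 x2) := enc_nat 2 (h21 h)

def t155 (b : Bx) : TM := tnat 2 (t60 b)
noncomputable def v155 (x1 x2 : ℝ) : ℝ := ((2 : ℕ) : ℝ) * v60 x1 x2
theorem h155 (h : In b E x1 x2) : Enc S E (t155 b) (v155 x1 x2) := enc_nat 2 (h60 h)

def t157 (b : Bx) : TM := tadd (t25 b) (t154 b)
noncomputable def v157 (x1 x2 : ℝ) : ℝ := v25 x1 x2 + v154 x1 x2
theorem h157 (h : In b E x1 x2) : Enc S E (t157 b) (v157 x1 x2) := enc_add (h25 h) (h154 h)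

def t158 (b : Bx) : TM := tmul S (t2 b) (t22 b)
noncomputable def v158 (x1 x2 : ℝ) : ℝ := v2 x1 x2 * v22 x1 x2
theorem h158 (h : In b E x1 x2) : Enc S E (t158 b) (v158 x1 x2) := enc_mul hS (h2 h) (h22 h)

def t159 (b : Bx) : TM := tsub (t158 b) (t21 b)
noncomputable def v159 (x1 x2 : ℝ) : ℝ := v158 x1 x2 - v21 x1 x2
theorem h159 (h : In b E x1 x2) : Enc S E (t159 b) (v159 x1 x2) := enc_sub (h158 h) (h21 h)

def t160 (b : Bx) : TM := tadd (t2 b) (t60 b)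
noncomputable def v160 (x1 x2 : ℝ) : ℝ := v2 x1 x2 + v60 x1 x2
theorem h160 (h : In b E x1 x2) : Enc S E (t160 b) (v160 x1 x2) := enc_add (h2 h) (h60 h)

def t161 (b : Bx) : TM := tmul S (t157 b) (t159 b)
noncomputable def v161 (x1 x2 : ℝ) : ℝ := v157 x1 x2 * v159 x1 x2
theorem h161 (h : In b E x1 x2) : Enc S E (t161 b) (v161 x1 x2) := enc_mul hS (h157 h) (h159 h)

def t162 (b : Bx) : TM := tmul S (t155 b) (t42 b)
noncomputable def v162 (x1 x2 : ℝ) : ℝ := v155 x1 x2 * v42 x1 x2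
theorem h162 (h : In b E x1 x2) : Enc S E (t162 b) (v162 x1 x2) := enc_mul hS (h155 h) (h42 h)

def t164 (b : Bx) : TM := tmul S (t157 b) (t160 b)
noncomputable def v164 (x1 x2 : ℝ) : ℝ := v157 x1 x2 * v160 x1 x2
theorem h164 (h : In b E x1 x2) : Enc S E (t164 b) (v164 x1 x2) := enc_mul hS (h157 h) (h160 h)

def t165 (b : Bx) : TM := tsub (t164 b) (t162 b)
noncomputable def v165 (x1 x2 : ℝ) : ℝ := v164 x1 x2 - v162 x1 x2
theorem h165 (h : In b E x1 x2) : Enc S E (t165 b) (v165 x1 x2) := enc_sub (h164 h) (h162 h)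

def t166 (b : Bx) : TM := tadd (t25 b) (t158 b)
noncomputable def v166 (x1 x2 : ℝ) : ℝ := v25 x1 x2 + v158 x1 x2
theorem h166 (h : In b E x1 x2) : Enc S E (t166 b) (v166 x1 x2) := enc_add (h25 h) (h158 h)

def t167 (b : Bx) : TM := tsub (t166 b) (t21 b)
noncomputable def v167 (x1 x2 : ℝ) : ℝ := v166 x1 x2 - v21 x1 x2
theorem h167 (h : In b E x1 x2) : Enc S E (t167 b) (v167 x1 x2) := enc_sub (h166 h) (h21 h)

def t168 (b : Bx) : TM := tnat 2 (t167 b)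
noncomputable def v168 (x1 x2 : ℝ) : ℝ := ((2 : ℕ) : ℝ) * v167 x1 x2
theorem h168 (h : In b E x1 x2) : Enc S E (t168 b) (v168 x1 x2) := enc_nat 2 (h167 h)

def t169 (b : Bx) : TM := tnat 2 (t160 b)
noncomputable def v169 (x1 x2 : ℝ) : ℝ := ((2 : ℕ) : ℝ) * v160 x1 x2
theorem h169 (h : In b E x1 x2) : Enc S E (t169 b) (v169 x1 x2) := enc_nat 2 (h160 h)

def t170 (b : Bx) : TM := tinv S (t168 b)
noncomputable def v170 (x1 x2 : ℝ) : ℝ := (v168 x1 x2)⁻¹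
theorem h170 (h : In b E x1 x2) : Enc S E (t170 b) (v170 x1 x2) := enc_inv hS (h168 h)

def t171 (b : Bx) : TM := tmul S (t47 b) (t170 b)
noncomputable def v171 (x1 x2 : ℝ) : ℝ := v47 x1 x2 * v170 x1 x2
theorem h171 (h : In b E x1 x2) : Enc S E (t171 b) (v171 x1 x2) := enc_mul hS (h47 h) (h170 h)

def t172 (b : Bx) : TM := tmul S (t169 b) (t171 b)
noncomputable def v172 (x1 x2 : ℝ) : ℝ := v169 x1 x2 * v171 x1 x2
theorem h172 (h : In b E x1 x2) : Enc S E (t172 b) (v172 x1 x2) := enc_mul hS (h169 h) (h171 h)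

def t175 (b : Bx) : TM := tmul S (t165 b) (t47 b)
noncomputable def v175 (x1 x2 : ℝ) : ℝ := v165 x1 x2 * v47 x1 x2
theorem h175 (h : In b E x1 x2) : Enc S E (t175 b) (v175 x1 x2) := enc_mul hS (h165 h) (h47 h)

def t176 (b : Bx) : TM := tmul S (t161 b) (t172 b)
noncomputable def v176 (x1 x2 : ℝ) : ℝ := v161 x1 x2 * v172 x1 x2
theorem h176 (h : In b E x1 x2) : Enc S E (t176 b) (v176 x1 x2) := enc_mul hS (h161 h) (h172 h)

def t178 (b : Bx) : TM := tsub (t175 b) (t176 b)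
noncomputable def v178 (x1 x2 : ℝ) : ℝ := v175 x1 x2 - v176 x1 x2
theorem h178 (h : In b E x1 x2) : Enc S E (t178 b) (v178 x1 x2) := enc_sub (h175 h) (h176 h)

def t179 (b : Bx) : TM := tsub (t22 b) (t3 b)
noncomputable def v179 (x1 x2 : ℝ) : ℝ := v22 x1 x2 - v3 x1 x2
theorem h179 (h : In b E x1 x2) : Enc S E (t179 b) (v179 x1 x2) := enc_sub (h22 h) (h3 h)

def t180 (b : Bx) : TM := tmul S (t179 b) (t121 b)
noncomputable def v180 (x1 x2 : ℝ) : ℝ := v179 x1 x2 * v121 x1 x2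
theorem h180 (h : In b E x1 x2) : Enc S E (t180 b) (v180 x1 x2) := enc_mul hS (h179 h) (h121 h)

def t182 (b : Bx) : TM := tsub (t116 b) (t180 b)
noncomputable def v182 (x1 x2 : ℝ) : ℝ := v116 x1 x2 - v180 x1 x2
theorem h182 (h : In b E x1 x2) : Enc S E (t182 b) (v182 x1 x2) := enc_sub (h116 h) (h180 h)

def t183 (b : Bx) : TM := tsub (t182 b) (t48 b)
noncomputable def v183 (x1 x2 : ℝ) : ℝ := v182 x1 x2 - v48 x1 x2
theorem h183 (h : In b E x1 x2) : Enc S E (t183 b) (v183 x1 x2) := enc_sub (h182 h) (h48 h)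

def t184 (b : Bx) : TM := tmul S (t67 b) (t178 b)
noncomputable def v184 (x1 x2 : ℝ) : ℝ := v67 x1 x2 * v178 x1 x2
theorem h184 (h : In b E x1 x2) : Enc S E (t184 b) (v184 x1 x2) := enc_mul hS (h67 h) (h178 h)

def t185 (b : Bx) : TM := tsub (t183 b) (t184 b)
noncomputable def v185 (x1 x2 : ℝ) : ℝ := v183 x1 x2 - v184 x1 x2
theorem h185 (h : In b E x1 x2) : Enc S E (t185 b) (v185 x1 x2) := enc_sub (h183 h) (h184 h)

def t186 (b : Bx) : TM := tmul S (t0 b) (t178 b)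
noncomputable def v186 (x1 x2 : ℝ) : ℝ := v0 x1 x2 * v178 x1 x2
theorem h186 (h : In b E x1 x2) : Enc S E (t186 b) (v186 x1 x2) := enc_mul hS (h0 h) (h178 h)

def t187 (b : Bx) : TM := tadd (t186 b) (t37 b)
noncomputable def v187 (x1 x2 : ℝ) : ℝ := v186 x1 x2 + v37 x1 x2
theorem h187 (h : In b E x1 x2) : Enc S E (t187 b) (v187 x1 x2) := enc_add (h186 h) (h37 h)

def t188 (b : Bx) : TM := tsub (t3 b) (t1 b)
noncomputable def v188 (x1 x2 : ℝ) : ℝ := v3 x1 x2 - v1 x1 x2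
theorem h188 (h : In b E x1 x2) : Enc S E (t188 b) (v188 x1 x2) := enc_sub (h3 h) (h1 h)

def t189 (b : Bx) : TM := qw_t (t0 b) (t29 b) (t188 b) (t135 b) (t153 b) (t185 b) (t187 b)
noncomputable def v189 (x1 x2 : ℝ) : ℝ := qw_v (v0 x1 x2) (v29 x1 x2) (v188 x1 x2) (v135 x1 x2) (v153 x1 x2) (v185 x1 x2) (v187 x1 x2)
theorem h189 (h : In b E x1 x2) : Enc S E (t189 b) (v189 x1 x2) := qw_enc (h0 h) (h29 h) (h188 h) (h135 h) (h153 h) (h185 h) (h187 h)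

def t190 (b : Bx) : TM := tscale 1 4 (t2 b)
noncomputable def v190 (x1 x2 : ℝ) : ℝ := ((1 : ℕ) : ℝ) / ((4 : ℕ) : ℝ) * v2 x1 x2
theorem h190 (h : In b E x1 x2) : Enc S E (t190 b) (v190 x1 x2) := enc_scale 1 (by norm_num) (h2 h)

def t192 (b : Bx) : TM := tsub (t0 b) (t190 b)
noncomputable def v192 (x1 x2 : ℝ) : ℝ := v0 x1 x2 - v190 x1 x2
theorem h192 (h : In b E x1 x2) : Enc S E (t192 b) (v192 x1 x2) := enc_sub (h0 h) (h190 h)

def t194 (b : Bx) : TM := tsub (t29 b) (t190 b)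
noncomputable def v194 (x1 x2 : ℝ) : ℝ := v29 x1 x2 - v190 x1 x2
theorem h194 (h : In b E x1 x2) : Enc S E (t194 b) (v194 x1 x2) := enc_sub (h29 h) (h190 h)

def t196 (b : Bx) : TM := tsub (t190 b) (t1 b)
noncomputable def v196 (x1 x2 : ℝ) : ℝ := v190 x1 x2 - v1 x1 x2
theorem h196 (h : In b E x1 x2) : Enc S E (t196 b) (v196 x1 x2) := enc_sub (h190 h) (h1 h)

def t197 (_b : Bx) : TM := tconst (Nat.div (Nat.mul 1 S) 16) 0 1
noncomputable def v197 (_x1 _x2 : ℝ) : ℝ := ((1 : ℕ) : ℝ) / ((16 : ℕ) : ℝ)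
theorem h197 (_h : In b E x1 x2) : Enc S E (t197 b) (v197 x1 x2) := enc_rat E 1 (by norm_num)

def t198 (b : Bx) : TM := tsub (t23 b) (t197 b)
noncomputable def v198 (x1 x2 : ℝ) : ℝ := v23 x1 x2 - v197 x1 x2
theorem h198 (h : In b E x1 x2) : Enc S E (t198 b) (v198 x1 x2) := enc_sub (h23 h) (h197 h)

def t199 (b : Bx) : TM := tsub (t22 b) (t1 b)
noncomputable def v199 (x1 x2 : ℝ) : ℝ := v22 x1 x2 - v1 x1 x2
theorem h199 (h : In b E x1 x2) : Enc S E (t199 b) (v199 x1 x2) := enc_sub (h22 h) (h1 h)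

def t200 (b : Bx) : TM := tsub (t199 b) (t197 b)
noncomputable def v200 (x1 x2 : ℝ) : ℝ := v199 x1 x2 - v197 x1 x2
theorem h200 (h : In b E x1 x2) : Enc S E (t200 b) (v200 x1 x2) := enc_sub (h199 h) (h197 h)

def t201 (b : Bx) : TM := tsub (t0 b) (t1 b)
noncomputable def v201 (x1 x2 : ℝ) : ℝ := v0 x1 x2 - v1 x1 x2
theorem h201 (h : In b E x1 x2) : Enc S E (t201 b) (v201 x1 x2) := enc_sub (h0 h) (h1 h)

def t202 (b : Bx) : TM := tsub (t25 b) (t51 b)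
noncomputable def v202 (x1 x2 : ℝ) : ℝ := v25 x1 x2 - v51 x1 x2
theorem h202 (h : In b E x1 x2) : Enc S E (t202 b) (v202 x1 x2) := enc_sub (h25 h) (h51 h)

def t203 (b : Bx) : TM := tadd (t127 b) (t12 b)
noncomputable def v203 (x1 x2 : ℝ) : ℝ := v127 x1 x2 + v12 x1 x2
theorem h203 (h : In b E x1 x2) : Enc S E (t203 b) (v203 x1 x2) := enc_add (h127 h) (h12 h)

def t204 (b : Bx) : TM := tneg (t203 b)
noncomputable def v204 (x1 x2 : ℝ) : ℝ := -(v203 x1 x2)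
theorem h204 (h : In b E x1 x2) : Enc S E (t204 b) (v204 x1 x2) := enc_neg (h203 h)

def g0 (b : Bx) : Bool := and (pos (t71 b)) (and (pos (t26 b)) (and (pos (t58 b)) (and (pos (t74 b)) (and (pos (t86 b)) (and (pos (t81 b)) (and (pos (t99 b)) (and (pos (t110 b)) (and (pos (t112 b)) (and (pos (t46 b)) (and (pos (t168 b)) (and (pos (t35 b)) (or (pos (t199 b)) (pos (t189 b))))))))))))))

def l0 (b : Bx) : Nat := cond (g0 b) 0 (pickb 1 (t189 b) b)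

def P0 (x1 x2 : ℝ) : Prop := 0 < v71 x1 x2 ∧ 0 < v26 x1 x2 ∧ 0 < v58 x1 x2 ∧ 0 < v74 x1 x2 ∧ 0 < v86 x1 x2 ∧ 0 < v81 x1 x2 ∧ 0 < v99 x1 x2 ∧ 0 < v110 x1 x2 ∧ 0 < v112 x1 x2 ∧ 0 < v46 x1 x2 ∧ 0 < v168 x1 x2 ∧ 0 < v35 x1 x2 ∧ (0 < v199 x1 x2 ∨ 0 < v189 x1 x2)

theorem l0_sound (h : In b E x1 x2) (e : l0 b = 0) : P0 x1 x2 := by
  have e1 : g0 b = true := by
    rcases e2 : g0 b with _ | _
    · unfold l0 at e; rw [e2, cond_false] at e; exact absurd e (pickb_ne _ _ _)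
    · rfl
  exact ⟨pos_sound hS (h71 h) (Bool.and_eq_true_iff.mp e1).1, ⟨pos_sound hS (h26 h) (Bool.and_eq_true_iff.mp (Bool.and_eq_true_iff.mp e1).2).1, ⟨pos_sound hS (h58 h) (Bool.and_eq_true_iff.mp (Bool.and_eq_true_iff.mp (Bool.and_eq_true_iff.mp e1).2).2).1, ⟨pos_sound hS (h74 h) (Bool.and_eq_true_iff.mp (Bool.and_eq_true_iff.mp (Bool.and_eq_true_iff.mp (Bool.and_eq_true_iff.mp e1).2).2).2).1, ⟨pos_sound hS (h86 h) (Bool.and_eq_true_iff.mp (Bool.and_eq_true_iff.mp (Bool.and_eq_true_iff.mp (Bool.and_eq_true_iff.mp (Bool.and_eq_true_iff.mp e1).2).2).2).2).1, ⟨pos_sound hS (h81 h) (Bool.and_eq_true_iff.mp (Bool.and_eq_true_iff.mp (Bool.and_eq_true_iff.mp (Bool.and_eq_true_iff.mp (Bool.and_eq_true_iff.mp (Bool.and_eq_true_iff.mp e1).2).2).2).2).2).1, ⟨pos_sound hS (h99 h) (Bool.and_eq_true_iff.mp (Bool.and_eq_true_iff.mp (Bool.and_eq_true_iff.mp (Bool.and_eq_true_iff.mp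 (Bool.and_eq_true_iff.mp (Bool.and_eq_true_iff.mp (Bool.and_eq_true_iff.mp e1).2).2).2).2).2).2).1, ⟨pos_sound hS (h110 h) (Bool.and_eq_true_iff.mp (Bool.and_eq_true_iff.mp (Bool.and_eq_true_iff.mp (Bool.and_eq_true_iff.mp (Bool.and_eq_true_iff.mp (Bool.and_eq_true_iff.mp (Bool.and_eq_true_iff.mp (Bool.and_eq_true_iff.mp e1).2).2).2).2).2).2).2).1, ⟨pos_sound hS (h112 h) (Bool.and_eq_true_iff.mp (Bool.and_eq_true_iff.mp (Bool.and_eq_true_iff.mp (Bool.and_eq_true_iff.mp (Bool.and_eq_true_iff.mp (Bool.and_eq_true_iff.mp (Bool.and_eq_true_iff.mp (Bool.and_eq_true_iff.mp (Bool.and_eq_true_iff.mp e1).2).2).2).2).2).2).2).2).1, ⟨pos_sound hS (h46 h) (Bool.and_eq_true_iff.mp (Bool.and_eq_true_iff.mp (Bool.and_eq_true_iff.mp (Bool.and_eq_true_iff.mp (Bool.and_eq_true_iff.mp (Bool.and_eq_true_iff.mp (Bool.and_eq_true_iff.mp (Bool.and_eq_true_iff.mp (Bool.and_eq_true_iff.mp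 (Bool.and_eq_true_iff.mp e1).2).2).2).2).2).2).2).2).2).1, ⟨pos_sound hS (h168 h) (Bool.and_eq_true_iff.mp (Bool.and_eq_true_iff.mp (Bool.and_eq_true_iff.mp (Bool.and_eq_true_iff.mp (Bool.and_eq_true_iff.mp (Bool.and_eq_true_iff.mp (Bool.and_eq_true_iff.mp (Bool.and_eq_true_iff.mp (Bool.and_eq_true_iff.mp (Bool.and_eq_true_iff.mp (Bool.and_eq_true_iff.mp e1).2).2).2).2).2).2).2).2).2).2).1, ⟨pos_sound hS (h35 h) (Bool.and_eq_true_iff.mp (Bool.and_eq_true_iff.mp (Bool.and_eq_true_iff.mp (Bool.and_eq_true_iff.mp (Bool.and_eq_true_iff.mp (Bool.and_eq_true_iff.mp (Bool.and_eq_true_iff.mp (Bool.and_eq_true_iff.mp (Bool.and_eq_true_iff.mp (Bool.and_eq_true_iff.mp (Bool.and_eq_true_iff.mp (Bool.and_eq_true_iff.mp e1).2).2).2).2).2).2).2).2).2).2).2).1, ((Bool.or_eq_true_iff.mp (Bool.and_eq_true_iff.mp (Bool.and_eq_true_iff.mp (Bool.and_eq_true_iff.mp (Bool.and_eq_true_iff.mp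 (Bool.and_eq_true_iff.mp (Bool.and_eq_true_iff.mp (Bool.and_eq_true_iff.mp (Bool.and_eq_true_iff.mp (Bool.and_eq_true_iff.mp (Bool.and_eq_true_iff.mp (Bool.and_eq_true_iff.mp (Bool.and_eq_true_iff.mp e1).2).2).2).2).2).2).2).2).2).2).2).2).imp (fun a => pos_sound hS (h199 h) a) (fun a => pos_sound hS (h189 h) a))⟩⟩⟩⟩⟩⟩⟩⟩⟩⟩⟩⟩

def g1 (b : Bx) : Bool := or (pos (t192 b)) (or (pos (t194 b)) (or (pos (t196 b)) (or (pos (t137 b)) (or (pos (t198 b)) (or (pos (t200 b)) (or (pos (t201 b)) (or (pos (t202 b)) (pos (t204 b)))))))))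

def l1 (b : Bx) : Nat := cond (g1 b) 0 (l0 b)

def P1 (x1 x2 : ℝ) : Prop := (0 < v192 x1 x2 ∨ 0 < v194 x1 x2 ∨ 0 < v196 x1 x2 ∨ 0 < v137 x1 x2 ∨ 0 < v198 x1 x2 ∨ 0 < v200 x1 x2 ∨ 0 < v201 x1 x2 ∨ 0 < v202 x1 x2 ∨ 0 < v204 x1 x2) ∨ (P0 x1 x2)

theorem l1_sound (h : In b E x1 x2) (e : l1 b = 0) : P1 x1 x2 := by
  unfold l1 at e
  rcases e1 : g1 b with _ | _
  · rw [e1, cond_false] at e
    have z0 : l0 b = 0 := e
    exact Or.inr (l0_sound h z0)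
  · exact Or.inl (((Bool.or_eq_true_iff.mp e1).imp (fun a => pos_sound hS (h192 h) a) (fun a => ((Bool.or_eq_true_iff.mp a).imp (fun a => pos_sound hS (h194 h) a) (fun a => ((Bool.or_eq_true_iff.mp a).imp (fun a => pos_sound hS (h196 h) a) (fun a => ((Bool.or_eq_true_iff.mp a).imp (fun a => pos_sound hS (h137 h) a) (fun a => ((Bool.or_eq_true_iff.mp a).imp (fun a => pos_sound hS (h198 h) a) (fun a => ((Bool.or_eq_true_iff.mp a).imp (fun a => pos_sound hS (h200 h) a) (fun a => ((Bool.or_eq_true_iff.mp a).imp (fun a => pos_sound hS (h201 h) a) (fun a => ((Bool.or_eq_true_iff.mp a).imp (fun a => pos_sound hS (h202 h) a) (fun a => pos_sound hS (h204 h) a)))))))))))))))))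

def f (b : Bx) : Nat := l1 b

/-- the statement -/
def Q (x1 x2 : ℝ) : Prop := P1 x1 x2

theorem f_sound (b : Bx) (hb : f b = 0) (x1 x2 : ℝ) (hm : Mem S b x1 x2) : Q x1 x2 := by
  obtain ⟨E, h⟩ := pt_of_mem hm
  have h : In b E x1 x2 := h
  unfold f at hb
  have e := hb
  have z1 : l1 b = 0 := e
  exact (l1_sound h z1)

/-- the box -/
def b0 : Bx := ⟨232471924, 0, 232471926, 697415773, 0, 232471926⟩

theorem chk_all {n : ℕ} {b : Bx} (h : chk f n b = true) (x1 x2 : ℝ) (hm : Mem S b x1 x2) : Q x1 x2 :=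
  chk_sound (fun b hb x1 x2 hm => f_sound b hb x1 x2 hm) n b h x1 x2 hm


end Pool.Agent.Strip051.LB.ChB30V3_pp_001
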