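import Pool.Agent.Strip051.LB.ChB30V3_pp_001.Defs
import Pool.Agent.Strip051.LB.Slope
import Pool.Agent.Strip051.LB.Star
import Pool.Agent.Strip051.LB.Cf

/-! # LINE tight chart ChB30V3_pp_001: slopes -/

namespace Pool.Agent.Strip051.LB.ChB30V3_pp_001

open Pool.Agent.Strip051.LB Pool.Agent.Strip051.LB.Fn Pool.Agent.Strip051.LB.Fc Pool.Agent.StripNear

set_option maxRecDepth 100000
set_option linter.all false

noncomputable def v38 (x1 x2 : ℝ) : ℝ := -(v37 x1 x2)

noncomputable def v52 (x1 x2 : ℝ) : ℝ := v51 x1 x2 - v25 x1 x2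

noncomputable def v54 (x1 x2 : ℝ) : ℝ := (v22 x1 x2) ^ 2

noncomputable def v56 (x1 x2 : ℝ) : ℝ := v25 x1 x2 - v54 x1 x2

noncomputable def v57 (x1 x2 : ℝ) : ℝ := -(v55 x1 x2)

noncomputable def v61 (x1 x2 : ℝ) : ℝ := -(v60 x1 x2)

noncomputable def v63 (x1 x2 : ℝ) : ℝ := (v62 x1 x2) ^ 2

noncomputable def v66 (x1 x2 : ℝ) : ℝ := -(v65 x1 x2)

noncomputable def v68 (x1 x2 : ℝ) : ℝ := (v67 x1 x2) ^ 2

noncomputable def v70 (x1 x2 : ℝ) : ℝ := v63 x1 x2 + v68 x1 x2

noncomputable def v72 (x1 x2 : ℝ) : ℝ := v70 x1 x2 - v25 x1 x2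

noncomputable def v84 (x1 x2 : ℝ) : ℝ := v25 x1 x2 - v68 x1 x2

noncomputable def v85 (x1 x2 : ℝ) : ℝ := -(v69 x1 x2)

noncomputable def v103 (x1 x2 : ℝ) : ℝ := -(v102 x1 x2)

noncomputable def v104 (x1 x2 : ℝ) : ℝ := v94 x1 x2 * v100 x1 x2

noncomputable def v117 (x1 x2 : ℝ) : ℝ := -(v104 x1 x2)

noncomputable def v122 (x1 x2 : ℝ) : ℝ := -(v121 x1 x2)

noncomputable def v128 (x1 x2 : ℝ) : ℝ := v7 x1 x2 * v22 x1 x2

noncomputable def v129 (x1 x2 : ℝ) : ℝ := v21 x1 x2 * v0 x1 x2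

noncomputable def v131 (x1 x2 : ℝ) : ℝ := -(v130 x1 x2)

noncomputable def v132 (x1 x2 : ℝ) : ℝ := v128 x1 x2 - v129 x1 x2

noncomputable def v134 (x1 x2 : ℝ) : ℝ := v132 x1 x2 * v8 x1 x2

noncomputable def v136 (x1 x2 : ℝ) : ℝ := v134 x1 x2 - v12 x1 x2

noncomputable def v156 (x1 x2 : ℝ) : ℝ := -(v155 x1 x2)

noncomputable def v173 (x1 x2 : ℝ) : ℝ := -(v172 x1 x2)

noncomputable def v174 (x1 x2 : ℝ) : ℝ := v161 x1 x2 * v170 x1 x2

structure Cx (x1 x2 : ℝ) : Prop where
  hc : v7 x1 x2 ^ 2 + x1 ^ 2 = 3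
  p26 : 0 < v26 x1 x2
  p58 : 0 < v58 x1 x2
  p74 : 0 < v74 x1 x2
  p86 : 0 < v86 x1 x2
  p81 : 0 < v81 x1 x2
  p99 : 0 < v99 x1 x2
  p110 : 0 < v110 x1 x2
  p112 : 0 < v112 x1 x2
  p46 : 0 < v46 x1 x2
  p168 : 0 < v168 x1 x2
  p35 : 0 < v35 x1 x2

variable {x1 x2 : ℝ}

theorem s3q (x1 x2 : ℝ) : v2 x1 x2 ^ 2 = 3 := by
  rw [v2]; exact s3sq

theorem s3ne (x1 x2 : ℝ) : v2 x1 x2 ≠ 0 := by
  rw [v2]; positivity

theorem s1 (c : Cx x1 x2) : v1 x1 x2 = v22 x1 x2 + v23 x1 x2 * v25 x1 x2 := by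
  simp only [v1, v19, v22, v23, v25]
  (try push_cast)
  first | ring | grind

theorem s24 (c : Cx x1 x2) : v24 x1 x2 = v54 x1 x2 + v23 x1 x2 * v55 x1 x2 := by
  have a0 : (v1 x1 x2 + v22 x1 x2) * v1 x1 x2 = (v1 x1 x2 + v22 x1 x2) * (v22 x1 x2 + v23 x1 x2 * v25 x1 x2) := congrArg (fun z => (v1 x1 x2 + v22 x1 x2) * z) (s1 c)
  try simp only [v1, v19, v22, v23, v24, v25, v54, v55] at a0
  simp only [v1, v19, v22, v23, v24, v25, v54, v55]
  (try push_cast at a0 ⊢)
  first | linear_combination a0 | ring | grind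

theorem s26 (c : Cx x1 x2) : v26 x1 x2 = v56 x1 x2 + v23 x1 x2 * v57 x1 x2 := by
  have a1 := s24 c
  try simp only [v1, v19, v22, v23, v25, v26, v55, v56, v57] at a1
  simp only [v1, v19, v22, v23, v25, v26, v55, v56, v57]
  (try push_cast at a1 ⊢)
  first | linear_combination -a1 | ring | grind

theorem q27 (c : Cx x1 x2) : v56 x1 x2 = v21 x1 x2 ^ 2 := by
  have hc := c.hc
  have h3 := s3q x1 x2
  have g0 : v2 x1 x2 ≠ 0 := s3ne x1 x2
  simp only [v0, v3, v8, v9, v10, v13, v15, v17, v19, v21, v22, v25, v54, v56] at hc ⊢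
  push_cast at hc ⊢
  grind

theorem s27 (c : Cx x1 x2) : v27 x1 x2 = v21 x1 x2 + v23 x1 x2 * v61 x1 x2 := by
  have a0 := s26 c
  have e : 0 < Real.sqrt (v26 x1 x2) + v21 x1 x2 := by
    have e := c.p58
    simp only [v15, v21, v25, v26, v27, v58] at e ⊢
    push_cast at e ⊢
    linarith
  have b := sl_sqrt a0 (q27 c) (le_of_lt c.p26) e
  clear a0
  try simp only [v1, v15, v19, v21, v22, v23, v25, v26, v27, v55, v56, v57, v58, v59, v60, v61] at b
  simp only [v1, v15, v19, v21, v22, v23, v25, v26, v27, v55, v56, v57, v58, v59, v60, v61]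
  (try push_cast at b ⊢)
  first | linear_combination b | ring | grind

theorem s28 (c : Cx x1 x2) : v28 x1 x2 = v62 x1 x2 + v23 x1 x2 * v61 x1 x2 := by
  have a0 := s27 c
  try simp only [v1, v15, v19, v21, v22, v23, v28, v61, v62] at a0
  simp only [v1, v15, v19, v21, v22, v23, v28, v61, v62]
  (try push_cast at a0 ⊢)
  first | linear_combination a0 | ring | grind

theorem s29 (c : Cx x1 x2) : v29 x1 x2 = v67 x1 x2 + v23 x1 x2 * v25 x1 x2 := by
  have a0 := s1 c
  try simp only [v0, v1, v19, v22, v23, v25, v29, v67] at a0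
  simp only [v0, v1, v19, v22, v23, v25, v29, v67]
  (try push_cast at a0 ⊢)
  first | linear_combination a0 | ring | grind

theorem s39 (c : Cx x1 x2) : v39 x1 x2 = v154 x1 x2 + v23 x1 x2 * v156 x1 x2 := by
  have a0 := s27 c
  try simp only [v1, v15, v19, v21, v22, v23, v39, v61, v154, v155, v156] at a0
  simp only [v1, v15, v19, v21, v22, v23, v39, v61, v154, v155, v156]
  (try push_cast at a0 ⊢)
  first | linear_combination (2 : ℝ) * a0 | ring | grind

theorem s40 (c : Cx x1 x2) : v40 x1 x2 = v157 x1 x2 + v23 x1 x2 * v156 x1 x2 := by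
  have a1 := s39 c
  try simp only [v1, v15, v19, v21, v22, v23, v25, v39, v40, v154, v155, v156, v157] at a1
  simp only [v1, v15, v19, v21, v22, v23, v25, v39, v40, v154, v155, v156, v157]
  (try push_cast at a1 ⊢)
  first | linear_combination a1 | ring | grind

theorem s41 (c : Cx x1 x2) : v41 x1 x2 = v158 x1 x2 + v23 x1 x2 * v2 x1 x2 := by
  have a1 : (v2 x1 x2) * v1 x1 x2 = (v2 x1 x2) * (v22 x1 x2 + v23 x1 x2 * v25 x1 x2) := congrArg (fun z => (v2 x1 x2) * z) (s1 c)
  try simp only [v1, v2, v19, v22, v23, v25, v41, v158] at a1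
  simp only [v1, v2, v19, v22, v23, v25, v41, v158]
  (try push_cast at a1 ⊢)
  first | linear_combination a1 | ring | grind

theorem s42 (c : Cx x1 x2) : v42 x1 x2 = v159 x1 x2 + v23 x1 x2 * v160 x1 x2 := by
  have a0 := s41 c
  have a1 := s27 c
  try simp only [v1, v2, v15, v19, v21, v22, v23, v42, v61, v159, v160] at a0
  try simp only [v1, v2, v15, v19, v21, v22, v23, v42, v61, v159, v160] at a1
  simp only [v1, v2, v15, v19, v21, v22, v23, v42, v61, v159, v160]
  (try push_cast at a0 a1 ⊢)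
  first | linear_combination a0 - a1 | ring | grind

theorem s43 (c : Cx x1 x2) : v43 x1 x2 = v161 x1 x2 + v23 x1 x2 * v165 x1 x2 := by
  have a0 : (v42 x1 x2) * v40 x1 x2 = (v42 x1 x2) * (v157 x1 x2 + v23 x1 x2 * v156 x1 x2) := congrArg (fun z => (v42 x1 x2) * z) (s40 c)
  have a1 : (v157 x1 x2) * v42 x1 x2 = (v157 x1 x2) * (v159 x1 x2 + v23 x1 x2 * v160 x1 x2) := congrArg (fun z => (v157 x1 x2) * z) (s42 c)
  try simp only [v1, v2, v15, v19, v21, v22, v23, v25, v39, v40, v42, v43, v154, v155, v156, v157, v159, v160, v161, v162, v164, v165] at a0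
  try simp only [v1, v2, v15, v19, v21, v22, v23, v25, v39, v40, v42, v43, v154, v155, v156, v157, v159, v160, v161, v162, v164, v165] at a1
  simp only [v1, v2, v15, v19, v21, v22, v23, v25, v39, v40, v42, v43, v154, v155, v156, v157, v159, v160, v161, v162, v164, v165]
  (try push_cast at a0 a1 ⊢)
  first | linear_combination a0 + a1 | ring | grind

theorem s44 (c : Cx x1 x2) : v44 x1 x2 = v166 x1 x2 + v23 x1 x2 * v2 x1 x2 := by
  have a1 := s41 c
  try simp only [v1, v2, v19, v22, v23, v25, v44, v166] at a1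
  simp only [v1, v2, v19, v22, v23, v25, v44, v166]
  (try push_cast at a1 ⊢)
  first | linear_combination a1 | ring | grind

theorem s45 (c : Cx x1 x2) : v45 x1 x2 = v167 x1 x2 + v23 x1 x2 * v160 x1 x2 := by
  have a0 := s44 c
  have a1 := s27 c
  try simp only [v1, v2, v15, v19, v21, v22, v23, v25, v44, v45, v61, v160, v166, v167] at a0
  try simp only [v1, v2, v15, v19, v21, v22, v23, v25, v44, v45, v61, v160, v166, v167] at a1
  simp only [v1, v2, v15, v19, v21, v22, v23, v25, v44, v45, v61, v160, v166, v167]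
  (try push_cast at a0 a1 ⊢)
  first | linear_combination a0 - a1 | ring | grind

theorem s46 (c : Cx x1 x2) : v46 x1 x2 = v168 x1 x2 + v23 x1 x2 * v169 x1 x2 := by
  have a0 := s45 c
  try simp only [v1, v2, v15, v19, v21, v22, v23, v25, v44, v45, v46, v160, v166, v167, v168, v169] at a0
  simp only [v1, v2, v15, v19, v21, v22, v23, v25, v44, v45, v46, v160, v166, v167, v168, v169]
  (try push_cast at a0 ⊢)
  first | linear_combination (2 : ℝ) * a0 | ring | grind

theorem s47 (c : Cx x1 x2) : v47 x1 x2 = v170 x1 x2 + v23 x1 x2 * v173 x1 x2 := by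
  have a0 := s46 c
  have b := sl_inv a0 (c.p46).ne' (c.p168).ne'
  clear a0
  try simp only [v1, v2, v15, v19, v21, v22, v23, v25, v44, v45, v46, v47, v160, v166, v167, v168, v169, v170, v171, v172, v173] at b
  simp only [v1, v2, v15, v19, v21, v22, v23, v25, v44, v45, v46, v47, v160, v166, v167, v168, v169, v170, v171, v172, v173]
  (try push_cast at b ⊢)
  first | linear_combination b | ring | grind

theorem s48 (c : Cx x1 x2) : v48 x1 x2 = v174 x1 x2 + v23 x1 x2 * v178 x1 x2 := by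
  have a0 : (v47 x1 x2) * v43 x1 x2 = (v47 x1 x2) * (v161 x1 x2 + v23 x1 x2 * v165 x1 x2) := congrArg (fun z => (v47 x1 x2) * z) (s43 c)
  have a1 : (v161 x1 x2) * v47 x1 x2 = (v161 x1 x2) * (v170 x1 x2 + v23 x1 x2 * v173 x1 x2) := congrArg (fun z => (v161 x1 x2) * z) (s47 c)
  try simp only [v1, v19, v22, v23, v48, v165, v173, v174, v175, v176, v178] at a0
  try simp only [v1, v19, v22, v23, v48, v165, v173, v174, v175, v176, v178] at a1
  simp only [v1, v19, v22, v23, v48, v165, v173, v174, v175, v176, v178]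
  (try push_cast at a0 a1 ⊢)
  first | linear_combination a0 + a1 | ring | grind

theorem s49 (c : Cx x1 x2) : v49 x1 x2 = v63 x1 x2 + v23 x1 x2 * v66 x1 x2 := by
  have a0 : (v28 x1 x2 + v62 x1 x2) * v28 x1 x2 = (v28 x1 x2 + v62 x1 x2) * (v62 x1 x2 + v23 x1 x2 * v61 x1 x2) := congrArg (fun z => (v28 x1 x2 + v62 x1 x2) * z) (s28 c)
  try simp only [v1, v15, v19, v21, v22, v23, v28, v49, v61, v62, v63, v64, v65, v66] at a0
  simp only [v1, v15, v19, v21, v22, v23, v28, v49, v61, v62, v63, v64, v65, v66]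
  (try push_cast at a0 ⊢)
  first | linear_combination a0 | ring | grind

theorem s50 (c : Cx x1 x2) : v50 x1 x2 = v68 x1 x2 + v23 x1 x2 * v69 x1 x2 := by
  have a0 : (v29 x1 x2 + v67 x1 x2) * v29 x1 x2 = (v29 x1 x2 + v67 x1 x2) * (v67 x1 x2 + v23 x1 x2 * v25 x1 x2) := congrArg (fun z => (v29 x1 x2 + v67 x1 x2) * z) (s29 c)
  try simp only [v0, v1, v19, v22, v23, v25, v29, v50, v67, v68, v69] at a0
  simp only [v0, v1, v19, v22, v23, v25, v29, v50, v67, v68, v69]
  (try push_cast at a0 ⊢)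
  first | linear_combination a0 | ring | grind

theorem s51 (c : Cx x1 x2) : v51 x1 x2 = v70 x1 x2 + v23 x1 x2 * v71 x1 x2 := by
  have a0 := s49 c
  have a1 := s50 c
  try simp only [v0, v1, v19, v22, v23, v29, v51, v66, v67, v69, v70, v71] at a0
  try simp only [v0, v1, v19, v22, v23, v29, v51, v66, v67, v69, v70, v71] at a1
  simp only [v0, v1, v19, v22, v23, v29, v51, v66, v67, v69, v70, v71]
  (try push_cast at a0 a1 ⊢)
  first | linear_combination a0 + a1 | ring | grind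

theorem s52 (c : Cx x1 x2) : v52 x1 x2 = v72 x1 x2 + v23 x1 x2 * v71 x1 x2 := by
  have a0 := s51 c
  try simp only [v0, v1, v19, v22, v23, v25, v29, v51, v52, v67, v69, v70, v71, v72] at a0
  simp only [v0, v1, v19, v22, v23, v25, v29, v51, v52, v67, v69, v70, v71, v72]
  (try push_cast at a0 ⊢)
  first | linear_combination a0 | ring | grind

theorem s74 (c : Cx x1 x2) : v74 x1 x2 = v84 x1 x2 + v23 x1 x2 * v85 x1 x2 := by
  have a1 := s50 c
  try simp only [v0, v1, v19, v22, v23, v25, v29, v67, v69, v74, v84, v85] at a1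
  simp only [v0, v1, v19, v22, v23, v25, v29, v67, v69, v74, v84, v85]
  (try push_cast at a1 ⊢)
  first | linear_combination -a1 | ring | grind

theorem q75 (c : Cx x1 x2) : v84 x1 x2 = v76 x1 x2 ^ 2 := by
  have hc := c.hc
  have h3 := s3q x1 x2
  have g0 : v2 x1 x2 ≠ 0 := s3ne x1 x2
  simp only [v0, v3, v8, v9, v10, v13, v15, v17, v19, v22, v25, v67, v68, v76, v84] at hc ⊢
  push_cast at hc ⊢
  grind

theorem s75 (c : Cx x1 x2) : v75 x1 x2 = v76 x1 x2 + v23 x1 x2 * v89 x1 x2 := by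
  have a0 := s74 c
  have e : 0 < Real.sqrt (v74 x1 x2) + v76 x1 x2 := by
    have e := c.p86
    simp only [v15, v25, v74, v75, v76, v86] at e ⊢
    push_cast at e ⊢
    linarith
  have b := sl_sqrt a0 (q75 c) (le_of_lt c.p74) e
  clear a0
  try simp only [v0, v1, v15, v19, v22, v23, v25, v29, v67, v69, v74, v75, v76, v84, v85, v86, v87, v88, v89] at b
  simp only [v0, v1, v15, v19, v22, v23, v25, v29, v67, v69, v74, v75, v76, v84, v85, v86, v87, v88, v89]
  (try push_cast at b ⊢)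
  first | linear_combination b | ring | grind

theorem s77 (c : Cx x1 x2) : v77 x1 x2 = v90 x1 x2 + v23 x1 x2 * v2 x1 x2 := by
  have a1 : (v2 x1 x2) * v29 x1 x2 = (v2 x1 x2) * (v67 x1 x2 + v23 x1 x2 * v25 x1 x2) := congrArg (fun z => (v2 x1 x2) * z) (s29 c)
  try simp only [v0, v1, v2, v19, v22, v23, v25, v29, v67, v77, v90] at a1
  simp only [v0, v1, v2, v19, v22, v23, v25, v29, v67, v77, v90]
  (try push_cast at a1 ⊢)
  first | linear_combination a1 | ring | grind

theorem s78 (c : Cx x1 x2) : v78 x1 x2 = v91 x1 x2 + v23 x1 x2 * v92 x1 x2 := by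
  have a0 := s75 c
  have a1 := s77 c
  try simp only [v1, v2, v15, v19, v22, v23, v76, v78, v89, v91, v92] at a0
  try simp only [v1, v2, v15, v19, v22, v23, v76, v78, v89, v91, v92] at a1
  simp only [v1, v2, v15, v19, v22, v23, v76, v78, v89, v91, v92]
  (try push_cast at a0 a1 ⊢)
  first | linear_combination a0 - a1 | ring | grind

theorem s79 (c : Cx x1 x2) : v79 x1 x2 = v93 x1 x2 + v23 x1 x2 * v89 x1 x2 := by
  have a1 := s75 c
  try simp only [v1, v15, v19, v22, v23, v25, v76, v79, v89, v93] at a1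
  simp only [v1, v15, v19, v22, v23, v25, v76, v79, v89, v93]
  (try push_cast at a1 ⊢)
  first | linear_combination a1 | ring | grind

theorem s80 (c : Cx x1 x2) : v80 x1 x2 = v94 x1 x2 + v23 x1 x2 * v98 x1 x2 := by
  have a0 : (v79 x1 x2) * v78 x1 x2 = (v79 x1 x2) * (v91 x1 x2 + v23 x1 x2 * v92 x1 x2) := congrArg (fun z => (v79 x1 x2) * z) (s78 c)
  have a1 : (v91 x1 x2) * v79 x1 x2 = (v91 x1 x2) * (v93 x1 x2 + v23 x1 x2 * v89 x1 x2) := congrArg (fun z => (v91 x1 x2) * z) (s79 c)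
  try simp only [v1, v2, v15, v19, v22, v23, v25, v76, v78, v79, v80, v89, v91, v92, v93, v94, v95, v96, v98] at a0
  try simp only [v1, v2, v15, v19, v22, v23, v25, v76, v78, v79, v80, v89, v91, v92, v93, v94, v95, v96, v98] at a1
  simp only [v1, v2, v15, v19, v22, v23, v25, v76, v78, v79, v80, v89, v91, v92, v93, v94, v95, v96, v98]
  (try push_cast at a0 a1 ⊢)
  first | linear_combination a0 + a1 | ring | grind

theorem s81 (c : Cx x1 x2) : v81 x1 x2 = v99 x1 x2 + v23 x1 x2 * v92 x1 x2 := by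
  have a0 := s79 c
  have a1 := s77 c
  try simp only [v1, v2, v15, v19, v22, v23, v25, v76, v79, v81, v89, v92, v93, v99] at a0
  try simp only [v1, v2, v15, v19, v22, v23, v25, v76, v79, v81, v89, v92, v93, v99] at a1
  simp only [v1, v2, v15, v19, v22, v23, v25, v76, v79, v81, v89, v92, v93, v99]
  (try push_cast at a0 a1 ⊢)
  first | linear_combination a0 - a1 | ring | grind

theorem s82 (c : Cx x1 x2) : v82 x1 x2 = v100 x1 x2 + v23 x1 x2 * v103 x1 x2 := by
  have a0 := s81 c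
  have b := sl_inv a0 (c.p81).ne' (c.p99).ne'
  clear a0
  try simp only [v1, v2, v15, v19, v22, v23, v25, v76, v79, v81, v82, v89, v92, v93, v99, v100, v101, v102, v103] at b
  simp only [v1, v2, v15, v19, v22, v23, v25, v76, v79, v81, v82, v89, v92, v93, v99, v100, v101, v102, v103]
  (try push_cast at b ⊢)
  first | linear_combination b | ring | grind

theorem s83 (c : Cx x1 x2) : v83 x1 x2 = v104 x1 x2 + v23 x1 x2 * v108 x1 x2 := by
  have a0 : (v82 x1 x2) * v80 x1 x2 = (v82 x1 x2) * (v94 x1 x2 + v23 x1 x2 * v98 x1 x2) := congrArg (fun z => (v82 x1 x2) * z) (s80 c)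
  have a1 : (v94 x1 x2) * v82 x1 x2 = (v94 x1 x2) * (v100 x1 x2 + v23 x1 x2 * v103 x1 x2) := congrArg (fun z => (v94 x1 x2) * z) (s82 c)
  try simp only [v1, v19, v22, v23, v83, v98, v103, v104, v105, v106, v108] at a0
  try simp only [v1, v19, v22, v23, v83, v98, v103, v104, v105, v106, v108] at a1
  simp only [v1, v19, v22, v23, v83, v98, v103, v104, v105, v106, v108]
  (try push_cast at a0 a1 ⊢)
  first | linear_combination a0 + a1 | ring | grind

theorem s123 (c : Cx x1 x2) : v123 x1 x2 = v128 x1 x2 + v23 x1 x2 * v7 x1 x2 := by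
  have a1 : (v7 x1 x2) * v1 x1 x2 = (v7 x1 x2) * (v22 x1 x2 + v23 x1 x2 * v25 x1 x2) := congrArg (fun z => (v7 x1 x2) * z) (s1 c)
  try simp only [v1, v19, v22, v23, v25, v123, v128] at a1
  simp only [v1, v19, v22, v23, v25, v123, v128]
  (try push_cast at a1 ⊢)
  first | linear_combination a1 | ring | grind

theorem s124 (c : Cx x1 x2) : v124 x1 x2 = v129 x1 x2 + v23 x1 x2 * v131 x1 x2 := by
  have a0 : (v0 x1 x2) * v27 x1 x2 = (v0 x1 x2) * (v21 x1 x2 + v23 x1 x2 * v61 x1 x2) := congrArg (fun z => (v0 x1 x2) * z) (s27 c)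
  try simp only [v0, v1, v15, v19, v21, v22, v23, v61, v124, v129, v130, v131] at a0
  simp only [v0, v1, v15, v19, v21, v22, v23, v61, v124, v129, v130, v131]
  (try push_cast at a0 ⊢)
  first | linear_combination a0 | ring | grind

theorem s125 (c : Cx x1 x2) : v125 x1 x2 = v132 x1 x2 + v23 x1 x2 * v133 x1 x2 := by
  have a0 := s123 c
  have a1 := s124 c
  try simp only [v1, v19, v22, v23, v125, v131, v132, v133] at a0
  try simp only [v1, v19, v22, v23, v125, v131, v132, v133] at a1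
  simp only [v1, v19, v22, v23, v125, v131, v132, v133]
  (try push_cast at a0 a1 ⊢)
  first | linear_combination a0 - a1 | ring | grind

theorem s126 (c : Cx x1 x2) : v126 x1 x2 = v134 x1 x2 + v23 x1 x2 * v135 x1 x2 := by
  have a0 : (v8 x1 x2) * v125 x1 x2 = (v8 x1 x2) * (v132 x1 x2 + v23 x1 x2 * v133 x1 x2) := congrArg (fun z => (v8 x1 x2) * z) (s125 c)
  try simp only [v1, v19, v22, v23, v125, v126, v132, v133, v134, v135] at a0
  simp only [v1, v19, v22, v23, v125, v126, v132, v133, v134, v135]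
  (try push_cast at a0 ⊢)
  first | linear_combination a0 | ring | grind

theorem s127 (c : Cx x1 x2) : v127 x1 x2 = v136 x1 x2 + v23 x1 x2 * v135 x1 x2 := by
  have a0 := s126 c
  try simp only [v1, v12, v19, v22, v23, v127, v136] at a0
  simp only [v1, v12, v19, v22, v23, v127, v136]
  (try push_cast at a0 ⊢)
  first | linear_combination a0 | ring | grind

theorem s137 (c : Cx x1 x2) : v137 x1 x2 = v179 x1 x2 + v23 x1 x2 * v25 x1 x2 := by
  have a0 := s1 c
  try simp only [v1, v2, v3, v19, v22, v23, v25, v137, v179] at a0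
  simp only [v1, v2, v3, v19, v22, v23, v25, v137, v179]
  (try push_cast at a0 ⊢)
  first | linear_combination a0 | ring | grind

theorem bD (c : Cx x1 x2) : v72 x1 x2 = 0 := by
  have hc := c.hc
  have h3 := s3q x1 x2
  have g0 : v2 x1 x2 ≠ 0 := s3ne x1 x2
  simp only [v0, v3, v8, v9, v10, v13, v15, v17, v19, v21, v22, v25, v62, v63, v67, v68, v70, v72] at hc ⊢
  push_cast at hc ⊢
  grind

theorem sD (c : Cx x1 x2) : v52 x1 x2 = v23 x1 x2 * v71 x1 x2 := by
  have h := s52 c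
  rw [bD c, zero_add] at h
  exact h

theorem s116 (c : Cx x1 x2) : v116 x1 x2 = v117 x1 x2 + v23 x1 x2 * v122 x1 x2 := by
  have hA := s83 c
  have hd := sD c
  have hs := c.p110
  have hc : v75 x1 x2 ^ 2 = v74 x1 x2 := by
    rw [v75]; exact Real.sq_sqrt (le_of_lt c.p74)
  have hx : v73 x1 x2 - v75 x1 x2 = v52 x1 x2 * (v110 x1 x2)⁻¹ := by
    have g : v73 x1 x2 ^ 2 - v75 x1 x2 ^ 2 = v52 x1 x2 := by
      rw [hc]; simp only [v0, v1, v25, v28, v29, v49, v50, v51, v52, v73, v74, v110]; push_cast; ring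
    have g3 : v110 x1 x2 = v73 x1 x2 + v75 x1 x2 := by
      simp only [v0, v1, v25, v28, v29, v49, v50, v51, v52, v73, v74, v110]; try push_cast
      try ring
    have g2 : 0 < v73 x1 x2 + v75 x1 x2 := by rw [← g3]; exact hs
    rw [g3]; exact diff_of_sq g g2
  have hy : v109 x1 x2 * (v73 x1 x2 - v75 x1 x2) = v109 x1 x2 * (v52 x1 x2 * (v110 x1 x2)⁻¹) := congrArg (fun z => v109 x1 x2 * z) hx
  have hK : v109 x1 x2 * (v110 x1 x2)⁻¹ * v52 x1 x2 = v109 x1 x2 * (v110 x1 x2)⁻¹ * (v23 x1 x2 * v71 x1 x2) := congrArg (fun z => v109 x1 x2 * (v110 x1 x2)⁻¹ * z) hd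
  try simp only [v0, v1, v19, v22, v23, v25, v29, v51, v52, v67, v69, v71, v73, v108, v110, v113, v114, v115, v116, v117, v118, v119, v120, v121, v122] at hA
  try simp only [v0, v1, v19, v22, v23, v25, v29, v51, v52, v67, v69, v71, v73, v108, v110, v113, v114, v115, v116, v117, v118, v119, v120, v121, v122] at hy
  try simp only [v0, v1, v19, v22, v23, v25, v29, v51, v52, v67, v69, v71, v73, v108, v110, v113, v114, v115, v116, v117, v118, v119, v120, v121, v122] at hK
  simp only [v0, v1, v19, v22, v23, v25, v29, v51, v52, v67, v69, v71, v73, v108, v110, v113, v114, v115, v116, v117, v118, v119, v120, v121, v122]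
  (try push_cast at hA hy hK ⊢)
  first | linear_combination -(hA + hy + hK) | grind

theorem bE (c : Cx x1 x2) : v136 x1 x2 = 0 := by
  have hc := c.hc
  have h3 := s3q x1 x2
  have g0 : v2 x1 x2 ≠ 0 := s3ne x1 x2
  simp only [v0, v3, v8, v9, v10, v12, v13, v15, v17, v19, v21, v22, v128, v129, v132, v134, v136] at hc ⊢
  push_cast at hc ⊢
  grind

theorem hE (c : Cx x1 x2) : v127 x1 x2 = v23 x1 x2 * v135 x1 x2 := by
  have h := s127 c
  rw [bE c, zero_add] at h
  exact h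

theorem bC12 (c : Cx x1 x2) : v0 x1 x2 * v117 x1 x2 - v67 x1 x2 * v38 x1 x2 = 0 := by
  have hc := c.hc
  have h3 := s3q x1 x2
  have g1 := (c.p35).ne'
  have g2 := (c.p99).ne'
  have g0 : v2 x1 x2 ≠ 0 := s3ne x1 x2
  simp only [v0, v3, v4, v8, v9, v10, v13, v15, v17, v19, v22, v25, v30, v31, v32, v33, v34, v35, v36, v37, v38, v67, v76, v90, v91, v93, v94, v99, v100, v104, v117] at hc g1 g2 ⊢
  push_cast at hc g1 g2 ⊢
  grind

theorem hC12 (c : Cx x1 x2) : v0 x1 x2 * v116 x1 x2 - v29 x1 x2 * v38 x1 x2 = v23 x1 x2 * v153 x1 x2 := by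
  have a2 : v0 x1 x2 * v116 x1 x2 = v0 x1 x2 * (v117 x1 x2 + v23 x1 x2 * v122 x1 x2) := congrArg (fun z => v0 x1 x2 * z) (s116 c)
  have a3 : v38 x1 x2 * v29 x1 x2 = v38 x1 x2 * (v67 x1 x2 + v23 x1 x2 * v25 x1 x2) := congrArg (fun z => v38 x1 x2 * z) (s29 c)
  have b := bC12 c
  try simp only [v0, v1, v19, v22, v23, v25, v29, v38, v67, v108, v115, v116, v117, v121, v122, v151, v153] at a2
  try simp only [v0, v1, v19, v22, v23, v25, v29, v38, v67, v108, v115, v116, v117, v121, v122, v151, v153] at a3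
  try simp only [v0, v1, v19, v22, v23, v25, v29, v38, v67, v108, v115, v116, v117, v121, v122, v151, v153] at b
  simp only [v0, v1, v19, v22, v23, v25, v29, v38, v67, v108, v115, v116, v117, v121, v122, v151, v153]
  (try push_cast at a2 a3 b ⊢)
  first | linear_combination a2 - a3 + b | grind

theorem bC32 (c : Cx x1 x2) : v179 x1 x2 * v117 x1 x2 - v67 x1 x2 * v174 x1 x2 = 0 := by
  have hc := c.hc
  have h3 := s3q x1 x2
  have g1 := (c.p99).ne'
  have g2 := (c.p168).ne'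
  have g0 : v2 x1 x2 ≠ 0 := s3ne x1 x2
  simp only [v0, v3, v8, v9, v10, v13, v15, v17, v19, v21, v22, v25, v67, v76, v90, v91, v93, v94, v99, v100, v104, v117, v154, v157, v158, v159, v161, v166, v167, v168, v170, v174, v179] at hc g1 g2 ⊢
  push_cast at hc g1 g2 ⊢
  grind

theorem hC32 (c : Cx x1 x2) : v137 x1 x2 * v116 x1 x2 - v29 x1 x2 * v48 x1 x2 = v23 x1 x2 * v185 x1 x2 := by
  have a1 : v116 x1 x2 * v137 x1 x2 = v116 x1 x2 * (v179 x1 x2 + v23 x1 x2 * v25 x1 x2) := congrArg (fun z => v116 x1 x2 * z) (s137 c)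
  have a2 : v179 x1 x2 * v116 x1 x2 = v179 x1 x2 * (v117 x1 x2 + v23 x1 x2 * v122 x1 x2) := congrArg (fun z => v179 x1 x2 * z) (s116 c)
  have a3 : v48 x1 x2 * v29 x1 x2 = v48 x1 x2 * (v67 x1 x2 + v23 x1 x2 * v25 x1 x2) := congrArg (fun z => v48 x1 x2 * z) (s29 c)
  have a4 : v67 x1 x2 * v48 x1 x2 = v67 x1 x2 * (v174 x1 x2 + v23 x1 x2 * v178 x1 x2) := congrArg (fun z => v67 x1 x2 * z) (s48 c)
  have b := bC32 c
  try simp only [v0, v1, v2, v3, v19, v22, v23, v25, v29, v67, v108, v115, v116, v117, v121, v122, v137, v178, v179, v180, v182, v183, v184, v185] at a1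
  try simp only [v0, v1, v2, v3, v19, v22, v23, v25, v29, v67, v108, v115, v116, v117, v121, v122, v137, v178, v179, v180, v182, v183, v184, v185] at a2
  try simp only [v0, v1, v2, v3, v19, v22, v23, v25, v29, v67, v108, v115, v116, v117, v121, v122, v137, v178, v179, v180, v182, v183, v184, v185] at a3
  try simp only [v0, v1, v2, v3, v19, v22, v23, v25, v29, v67, v108, v115, v116, v117, v121, v122, v137, v178, v179, v180, v182, v183, v184, v185] at a4
  try simp only [v0, v1, v2, v3, v19, v22, v23, v25, v29, v67, v108, v115, v116, v117, v121, v122, v137, v178, v179, v180, v182, v183, v184, v185] at b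
  simp only [v0, v1, v2, v3, v19, v22, v23, v25, v29, v67, v108, v115, v116, v117, v121, v122, v137, v178, v179, v180, v182, v183, v184, v185]
  (try push_cast at a1 a2 a3 a4 b ⊢)
  first | linear_combination a1 + a2 - a3 - a4 + b | grind

theorem bC13 (c : Cx x1 x2) : v0 x1 x2 * v174 x1 x2 - v179 x1 x2 * v38 x1 x2 = 0 := by
  have hc := c.hc
  have h3 := s3q x1 x2
  have g1 := (c.p35).ne'
  have g2 := (c.p168).ne'
  have g0 : v2 x1 x2 ≠ 0 := s3ne x1 x2
  simp only [v0, v3, v4, v8, v9, v10, v13, v15, v17, v19, v21, v22, v25, v30, v31, v32, v33, v34, v35, v36, v37, v38, v154, v157, v158, v159, v161, v166, v167, v168, v170, v174, v179] at hc g1 g2 ⊢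
  push_cast at hc g1 g2 ⊢
  grind

theorem hC13 (c : Cx x1 x2) : v0 x1 x2 * v48 x1 x2 - v137 x1 x2 * v38 x1 x2 = v23 x1 x2 * v187 x1 x2 := by
  have a2 : v0 x1 x2 * v48 x1 x2 = v0 x1 x2 * (v174 x1 x2 + v23 x1 x2 * v178 x1 x2) := congrArg (fun z => v0 x1 x2 * z) (s48 c)
  have a3 : v38 x1 x2 * v137 x1 x2 = v38 x1 x2 * (v179 x1 x2 + v23 x1 x2 * v25 x1 x2) := congrArg (fun z => v38 x1 x2 * z) (s137 c)
  have b := bC13 c
  try simp only [v0, v1, v2, v3, v19, v22, v23, v25, v38, v137, v178, v179, v186, v187] at a2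
  try simp only [v0, v1, v2, v3, v19, v22, v23, v25, v38, v137, v178, v179, v186, v187] at a3
  try simp only [v0, v1, v2, v3, v19, v22, v23, v25, v38, v137, v178, v179, v186, v187] at b
  simp only [v0, v1, v2, v3, v19, v22, v23, v25, v38, v137, v178, v179, v186, v187]
  (try push_cast at a2 a3 b ⊢)
  first | linear_combination a2 - a3 + b | grind

theorem core (c : Cx x1 x2) (hW : 0 ≤ v23 x1 x2) (hWQ : 0 ≤ v23 x1 x2 * v189 x1 x2) :
    0 ≤ starw_v (v127 x1 x2) (v0 x1 x2) (v29 x1 x2) ((-v137 x1 x2)) ((-v38 x1 x2)) ((-v116 x1 x2)) (v48 x1 x2) := by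
  have e1 : v29 x1 x2 * (-v38 x1 x2) - v0 x1 x2 * (-v116 x1 x2) = v23 x1 x2 * v153 x1 x2 := by linear_combination hC12 c
  have e2 : (-v137 x1 x2) * (-v116 x1 x2) - v29 x1 x2 * v48 x1 x2 = v23 x1 x2 * v185 x1 x2 := by linear_combination hC32 c
  have e3 : v0 x1 x2 * v48 x1 x2 - (-v137 x1 x2) * (-v38 x1 x2) = v23 x1 x2 * v187 x1 x2 := by linear_combination hC13 c
  have f2 : (-v137 x1 x2) = v188 x1 x2 := by
    simp only [v0, v1, v2, v3, v29, v137, v188]
    try (push_cast; ring)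
  rw [starw_eq hW (hE c) e1 e2 e3]
  rw [f2]
  exact hWQ

end Pool.Agent.Strip051.LB.ChB30V3_pp_001
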